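import Pool.Agent.PJC.Stmts

/-!
# Squad PJC, row TIG: tightness
-/

set_option autoImplicit false

namespace Pool.Agent.PJC.H84

open Pool.Agent.PJC

variable {n : ℕ}

/-- defect at the targets -/
noncomputable def E1 (s : Side n) (a : s.A) : ℝ :=
  ∑ i, s.w a i * (1 + inner ℝ (s.t' a i) (s.v a i))

/-- defect at the state -/
noncomputable def E3 (s : Side n) (a : s.A) : ℝ :=
  ∑ i, s.w a i * (1 - inner ℝ (s.t a) (s.v a i))

/-- mean square of the jump -/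
noncomputable def DD (s : Side n) (a : s.A) : ℝ :=
  ∑ i, s.w a i * ‖s.t a - s.t' a i‖ ^ 2

theorem E1_nn {s : Side n} {S : Set (Eu n)} {ε d : ℝ} (h : s.Good S ε d) (a : s.A) :
    0 ≤ E1 s a := by
  refine Finset.sum_nonneg fun i _ => mul_nonneg (h.w0 a i) ?_
  have := (abs_le.1 (h.pol _ (h.tS' a i) a i)).1
  linarith

/-- the mean of `⟨t - t', v⟩` -/
theorem mean_tv {s : Side n} {S : Set (Eu n)} {ε d : ℝ} (h : s.Good S ε d) (a : s.A) :
    ∑ i, s.w a i * inner ℝ (s.t a - s.t' a i) (s.v a i) = 2 - E3 s a - E1 s a := by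
  have h1 : (2 : ℝ) = ∑ i, s.w a i * 2 := by
    rw [← Finset.sum_mul, h.w1, one_mul]
  rw [h1]
  unfold E3 E1
  rw [← Finset.sum_sub_distrib, ← Finset.sum_sub_distrib]
  refine Finset.sum_congr rfl fun i _ => ?_
  rw [inner_sub_left]
  ring

theorem DD_ge {s : Side n} {S : Set (Eu n)} {ε d : ℝ} (h : s.Good S ε d) (a : s.A) :
    4 - 4 * (E3 s a + E1 s a) ≤ DD s a := by
  have h1 : (∑ i, s.w a i * inner ℝ (s.t a - s.t' a i) (s.v a i)) ^ 2 ≤
      ∑ i, s.w a i * inner ℝ (s.t a - s.t' a i) (s.v a i) ^ 2 := by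
    have := wcs (s.w a) (fun i => inner ℝ (s.t a - s.t' a i) (s.v a i)) (fun _ => 1) (h.w0 a)
    simpa [h.w1] using this
  have h2 : ∑ i, s.w a i * inner ℝ (s.t a - s.t' a i) (s.v a i) ^ 2 ≤ DD s a := by
    refine Finset.sum_le_sum fun i _ => mul_le_mul_of_nonneg_left ?_ (h.w0 a i)
    rw [← sq_abs (inner ℝ (s.t a - s.t' a i) (s.v a i))]
    have h3 : |inner ℝ (s.t a - s.t' a i) (s.v a i)| ≤ ‖s.t a - s.t' a i‖ := by
      refine (abs_real_inner_le_norm _ _).trans ?_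
      have := h.lenV a i
      have h4 := norm_nonneg (s.t a - s.t' a i)
      nlinarith
    exact pow_le_pow_left₀ (abs_nonneg _) h3 2
  rw [mean_tv h] at h1
  nlinarith [sq_nonneg (E3 s a + E1 s a)]

theorem DD_eq {s : Side n} {S : Set (Eu n)} {ε d : ℝ} (h : s.Good S ε d) (a : s.A) :
    DD s a = (∑ i, s.w a i * ‖s.t' a i‖ ^ 2 - ‖s.t a‖ ^ 2) + 2 * s.e a * ‖s.t a‖ ^ 2 := by
  unfold DD
  have h1 : ∀ i, s.w a i * ‖s.t a - s.t' a i‖ ^ 2 = s.w a i * ‖s.t' a i‖ ^ 2 +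
      s.w a i * ‖s.t a‖ ^ 2 - 2 * inner ℝ (s.t a) (s.w a i • s.t' a i) := by
    intro i
    rw [norm_sub_sq_real, inner_smul_right]
    ring
  simp only [h1]
  rw [Finset.sum_sub_distrib, Finset.sum_add_distrib, ← Finset.sum_mul, h.w1, ← Finset.mul_sum,
    ← inner_sum, h.mean, inner_smul_right, real_inner_self_eq_norm_sq]
  ring

theorem bud' {s : Side n} {S : Set (Eu n)} {ε d : ℝ} (h : s.Good S ε d)
    (hk1 : ∀ a, s.k a ≤ 1) (hε : ε < 1) (a : s.A) :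
    s.k a ≤ ε ∧ E1 s a + s.e a ≤ ε - (1 - ε) * (s.k a + s.k a ^ 2) := by
  have h1 := E1_nn h a
  have h2 := h.e0 a
  have h3 := h.k0 a
  have h4 : s.k a + (1 - s.k a) * (E1 s a + s.e a) ≤ ε := h.bud a
  have h5 : s.k a ≤ ε := by
    have := mul_nonneg (sub_nonneg.2 (hk1 a)) (add_nonneg h1 h2)
    linarith
  refine ⟨h5, ?_⟩
  have h6 : 0 < 1 - s.k a := by linarith
  have h7 : (1 - s.k a) * (E1 s a + s.e a) ≤
      (1 - s.k a) * (ε - (1 - ε) * (s.k a + s.k a ^ 2)) := by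
    have h8 : (1 - s.k a) * (ε - (1 - ε) * (s.k a + s.k a ^ 2)) =
        ε - s.k a + (1 - ε) * s.k a ^ 3 := by ring
    rw [h8]
    have h9 : 0 ≤ (1 - ε) * s.k a ^ 3 := mul_nonneg (by linarith) (pow_nonneg h3 3)
    linarith
  exact le_of_mul_le_mul_left h7 h6

theorem V_norm (s : Side n) (a : s.A) (i : s.I) :
    ‖s.V a i‖ ^ 2 = ‖s.t a - s.t' a i‖ ^ 2 / 4 := by
  unfold Side.V
  rw [norm_smul, mul_pow, Real.norm_of_nonneg (by norm_num)]
  ring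

theorem V_inner (s : Side n) (a : s.A) (i : s.I) (x : Eu n) :
    inner ℝ (s.V a i) x = inner ℝ (s.t a - s.t' a i) x / 2 := by
  unfold Side.V
  rw [real_inner_smul_left]
  ring

/-- arithmetic: the bounds for the defects -/
theorem ar1 {n α h Sk Sk2 S1 : ℝ} (hn : n = 4 ∨ 5 ≤ n) (hα2 : α = h ^ 2)
    (hh : 0 < h) (hh1 : h ≤ 1 / 100) (hSkn : 0 ≤ Sk) (hSk2n : 0 ≤ Sk2) (hS1n : 0 ≤ S1)
    (hSksq : Sk ^ 2 ≤ Sk2)
    (hm : (2 * n - 8) * Sk + (2 * n - 4 - 2 * α) * Sk2 + (2 * n - 4) * S1 ≤ 4 * α) :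
    S1 ≤ 4 * h / n ∧ Sk ≤ 10 * h / n := by
  have hn' : 4 ≤ n := by
    rcases hn with h1 | h1 <;> linarith
  have hn0 : 0 < n := by linarith
  have hα1 : α ≤ h / 100 := by rw [hα2]; nlinarith
  have hc1 : 0 ≤ (2 * n - 8) * Sk := mul_nonneg (by linarith) hSkn
  have hc2 : 0 ≤ (2 * n - 4 - 2 * α) * Sk2 := mul_nonneg (by linarith) hSk2n
  have hc3 : 0 ≤ (2 * n - 4) * S1 := mul_nonneg (by linarith) hS1n
  constructor
  · rw [le_div_iff₀ hn0]
    have e1 : (2 * n - 4) * S1 ≤ 4 * α := by linarith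
    nlinarith
  · rw [le_div_iff₀ hn0]
    rcases hn with h4 | h5
    · rw [h4] at hm hc3 hc2 ⊢
      have e1 : (4 - 2 * α) * Sk2 ≤ 4 * α := by linarith
      have e0 : 2 * Sk2 ≤ (4 - 2 * α) * Sk2 :=
        mul_le_mul_of_nonneg_right (by linarith) hSk2n
      have e2 : Sk2 ≤ 2 * α := by linarith
      have e3 : Sk ^ 2 ≤ 2 * h ^ 2 := by
        rw [← hα2]
        exact hSksq.trans e2
      have e4 : Sk ≤ 2 * h := by
        have h2 : Sk ^ 2 ≤ (2 * h) ^ 2 := by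
          have : 0 ≤ h ^ 2 := sq_nonneg h
          linarith
        exact le_of_sq_le_sq h2 (by linarith)
      linarith
    · have e1 : (2 * n - 8) * Sk ≤ 4 * α := by linarith
      have e2 : 0 ≤ (n - 5) * Sk := mul_nonneg (by linarith) hSkn
      have e3 : Sk * n ≤ 5 * ((n - 4) * Sk) := by linarith
      linarith

theorem tig' (n : ℕ) (s : Side n) (S : Set (Eu n)) (η d : ℝ) (hn : 4 ≤ n) (hη : 0 < η)
    (hη1 : η ≤ 1 / 10) (hd1 : d ≤ η ^ 4 / (n : ℝ) ^ 3)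
    (h : s.Good S ((2 + η ^ 4) / n) d) (hk1 : ∀ a, s.k a ≤ 1) :
    (∀ a, s.e a ≤ (2 + η ^ 4) / n) ∧
    ∑ a, s.μ a * s.k a ≤ 10 * η ^ 2 / n ∧
    s.ex (fun a i => ‖s.V a i‖ ^ 2) ≤ 1 + η ^ 2 ∧
    s.ex (fun a i => ‖s.V a i - s.v a i‖ ^ 2) ≤ 15 * η ^ 2 ∧
    1 - 15 * η ^ 2 ≤ s.ex (fun a i => ‖s.v a i‖ ^ 2) := by
  have hn' : (4 : ℝ) ≤ n := by exact_mod_cast hn
  have hn0 : (0 : ℝ) < n := by linarith
  obtain ⟨α, hα⟩ : ∃ α : ℝ, α = η ^ 4 := ⟨_, rfl⟩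
  obtain ⟨ε, hε⟩ : ∃ ε : ℝ, ε = (2 + η ^ 4) / n := ⟨_, rfl⟩
  rw [← hε] at h ⊢
  have hη2 : η ^ 2 ≤ 1 / 100 := by nlinarith
  have hη20 : 0 < η ^ 2 := by positivity
  have hα0 : 0 < α := by rw [hα]; positivity
  have hα2 : α = (η ^ 2) ^ 2 := by rw [hα]; ring
  have hα1 : α ≤ η ^ 2 / 100 := by rw [hα2]; nlinarith
  have hnε : n * ε = 2 + α := by
    rw [hε, hα]
    field_simp
  have hεle : ε ≤ 51 / 100 := by
    by_contra hc
    push Not at hc
    nlinarith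
  have hε0 : 0 < ε := by
    rw [hε]
    positivity
  have hdn : d * n ≤ α / 16 := by
    have h1 : d * n ≤ η ^ 4 / (n : ℝ) ^ 3 * n := mul_le_mul_of_nonneg_right hd1 hn0.le
    have h2 : η ^ 4 / (n : ℝ) ^ 3 * n = α / (n : ℝ) ^ 2 := by
      rw [hα]
      field_simp
    rw [h2] at h1
    refine h1.trans ?_
    apply div_le_div_of_nonneg_left hα0.le (by norm_num)
    nlinarith
  have hwt := h.wt
  -- sums
  obtain ⟨Sk, hSk⟩ : ∃ x, x = ∑ a, s.μ a * s.k a := ⟨_, rfl⟩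
  obtain ⟨Sk2, hSk2⟩ : ∃ x, x = ∑ a, s.μ a * s.k a ^ 2 := ⟨_, rfl⟩
  obtain ⟨S1, hS1⟩ : ∃ x, x = ∑ a, s.μ a * E1 s a := ⟨_, rfl⟩
  obtain ⟨S3, hS3⟩ : ∃ x, x = ∑ a, s.μ a * E3 s a := ⟨_, rfl⟩
  obtain ⟨Se, hSe⟩ : ∃ x, x = ∑ a, s.μ a * s.e a := ⟨_, rfl⟩
  obtain ⟨SD, hSD⟩ : ∃ x, x = ∑ a, s.μ a * DD s a := ⟨_, rfl⟩
  have hb := bud' h hk1 (by linarith)
  have hmono : ∀ F G : s.A → ℝ, (∀ a, F a ≤ G a) → ∑ a, s.μ a * F a ≤ ∑ a, s.μ a * G a :=
    fun F G hFG => Finset.sum_le_sum fun a _ => mul_le_mul_of_nonneg_left (hFG a) (h.mu0 a)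
  have hcst : ∀ c : ℝ, ∑ a, s.μ a * c = c := fun c => by
    rw [← Finset.sum_mul, h.mu1, one_mul]
  have hS1n : 0 ≤ S1 := by
    rw [hS1]
    exact Finset.sum_nonneg fun a _ => mul_nonneg (h.mu0 a) (E1_nn h a)
  have hSkn : 0 ≤ Sk := by
    rw [hSk]
    exact Finset.sum_nonneg fun a _ => mul_nonneg (h.mu0 a) (h.k0 a)
  have hSk2n : 0 ≤ Sk2 := by
    rw [hSk2]
    exact Finset.sum_nonneg fun a _ => mul_nonneg (h.mu0 a) (sq_nonneg _)
  have hS3k : S3 ≤ Sk := by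
    rw [hS3, hSk]
    exact hmono _ _ h.e3
  have hSkε : Sk ≤ ε := by
    rw [hSk, ← hcst ε]
    exact hmono _ _ fun a => (hb a).1
  have hSksq : Sk ^ 2 ≤ Sk2 := by
    rw [hSk, hSk2]
    have := wcs s.μ s.k (fun _ => 1) h.mu0
    simpa [h.mu1] using this
  have hbud : S1 + Se ≤ ε - (1 - ε) * (Sk + Sk2) := by
    have h1 : ∑ a, s.μ a * (E1 s a + s.e a) ≤
        ∑ a, s.μ a * (ε - (1 - ε) * (s.k a + s.k a ^ 2)) := hmono _ _ fun a => (hb a).2
    have h2 : ∑ a, s.μ a * (E1 s a + s.e a) = S1 + Se := by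
      rw [hS1, hSe, ← Finset.sum_add_distrib]
      exact Finset.sum_congr rfl fun a _ => by ring
    have h3 : ∑ a, s.μ a * (ε - (1 - ε) * (s.k a + s.k a ^ 2)) =
        ε - (1 - ε) * (Sk + Sk2) := by
      have h4 : ∀ a, s.μ a * (ε - (1 - ε) * (s.k a + s.k a ^ 2)) =
          s.μ a * ε - ((1 - ε) * (s.μ a * s.k a) + (1 - ε) * (s.μ a * s.k a ^ 2)) := by
        intro a
        ring
      simp only [h4]
      rw [Finset.sum_sub_distrib, hcst, Finset.sum_add_distrib, ← Finset.mul_sum,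
        ← Finset.mul_sum, ← hSk, ← hSk2]
      ring
    linarith
  have hDge : 4 - 4 * (S3 + S1) ≤ SD := by
    have h1 : ∑ a, s.μ a * (4 - 4 * (E3 s a + E1 s a)) ≤ ∑ a, s.μ a * DD s a :=
      hmono _ _ fun a => DD_ge h a
    have h2 : ∑ a, s.μ a * (4 - 4 * (E3 s a + E1 s a)) = 4 - 4 * (S3 + S1) := by
      have h4 : ∀ a, s.μ a * (4 - 4 * (E3 s a + E1 s a)) =
          s.μ a * 4 - (4 * (s.μ a * E3 s a) + 4 * (s.μ a * E1 s a)) := by
        intro a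
        ring
      simp only [h4]
      rw [Finset.sum_sub_distrib, hcst, Finset.sum_add_distrib, ← Finset.mul_sum,
        ← Finset.mul_sum, ← hS3, ← hS1]
      ring
    rw [← h2, hSD]
    exact h1
  have hDle : SD ≤ d * n + 2 * n * Se := by
    have hlen : ∀ x ∈ S, ‖x‖ ^ 2 ≤ n := by
      intro x hx
      have h1 := pow_le_pow_left₀ (norm_nonneg x) (h.lenS x hx) 2
      rwa [Real.sq_sqrt hn0.le] at h1
    have hst := h.stat (fun x => ‖x‖ ^ 2 / n) (by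
      intro x hx
      rw [abs_of_nonneg (by positivity), div_le_one hn0]
      exact hlen x hx)
    have h1 : ∑ a, s.μ a * (∑ i, s.w a i * (‖s.t' a i‖ ^ 2 / n) - ‖s.t a‖ ^ 2 / n) =
        (∑ a, s.μ a * (∑ i, s.w a i * ‖s.t' a i‖ ^ 2 - ‖s.t a‖ ^ 2)) / n := by
      rw [Finset.sum_div]
      refine Finset.sum_congr rfl fun a _ => ?_
      have h2 : ∑ i, s.w a i * (‖s.t' a i‖ ^ 2 / n) = (∑ i, s.w a i * ‖s.t' a i‖ ^ 2) / n := by
        rw [Finset.sum_div]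
        exact Finset.sum_congr rfl fun i _ => by ring
      rw [h2]
      ring
    rw [h1] at hst
    have h2 := (abs_le.1 hst).2
    rw [div_le_iff₀ hn0] at h2
    have h3 : SD = ∑ a, s.μ a * (∑ i, s.w a i * ‖s.t' a i‖ ^ 2 - ‖s.t a‖ ^ 2) +
        ∑ a, s.μ a * (2 * s.e a * ‖s.t a‖ ^ 2) := by
      rw [hSD, ← Finset.sum_add_distrib]
      refine Finset.sum_congr rfl fun a _ => ?_
      rw [DD_eq h]
      ring
    have h4 : ∑ a, s.μ a * (2 * s.e a * ‖s.t a‖ ^ 2) ≤ ∑ a, s.μ a * (2 * s.e a * n) :=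
      hmono _ _ fun a => mul_le_mul_of_nonneg_left (hlen _ (h.tS a))
        (by have := h.e0 a; linarith)
    have h5 : ∑ a, s.μ a * (2 * s.e a * n) = 2 * n * Se := by
      rw [hSe, Finset.mul_sum]
      exact Finset.sum_congr rfl fun a _ => by ring
    linarith
  -- the main inequality
  have hmain : (2 * n - 8 - 2 * α) * Sk + (2 * n - 4 - 2 * α) * Sk2 + (2 * n - 4) * S1 ≤
      2 * α + d * n := by
    have e1 : 2 * n * (1 - ε) = 2 * n - 4 - 2 * α := by linarith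
    have e2 : 2 * n * Se ≤ 2 * n * (ε - (1 - ε) * (Sk + Sk2) - S1) := by
      apply mul_le_mul_of_nonneg_left _ (by linarith)
      linarith
    have e3 : 2 * n * (ε - (1 - ε) * (Sk + Sk2) - S1) =
        (4 + 2 * α) - (2 * n - 4 - 2 * α) * (Sk + Sk2) - 2 * n * S1 := by
      rw [← e1]
      linear_combination 2 * hnε
    rw [e3] at e2
    linarith
  have hmain2 : (2 * n - 8) * Sk + (2 * n - 4 - 2 * α) * Sk2 + (2 * n - 4) * S1 ≤ 4 * α := by
    have e1 : α * Sk ≤ α * (51 / 100) := mul_le_mul_of_nonneg_left (hSkε.trans hεle) hα0.le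
    linarith
  obtain ⟨hS1le, hSkle⟩ := ar1 (h := η ^ 2) (n := (n : ℝ)) (by
    rcases Nat.eq_or_lt_of_le hn with h4 | h5
    · left
      exact_mod_cast h4.symm
    · right
      exact_mod_cast h5) hα2 hη20 hη2 hSkn hSk2n hS1n hSksq hmain2
  -- conclusions
  have hV : s.ex (fun a i => ‖s.V a i‖ ^ 2) = SD / 4 := by
    rw [hSD]
    unfold Side.ex DD
    rw [Finset.sum_div]
    refine Finset.sum_congr rfl fun a _ => ?_
    rw [mul_div_assoc, Finset.sum_div]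
    congr 1
    refine Finset.sum_congr rfl fun i _ => ?_
    show s.w a i * ‖s.V a i‖ ^ 2 = _
    rw [V_norm]
    ring
  have hVv : s.ex (fun a i => inner ℝ (s.V a i) (s.v a i)) = 1 - (S3 + S1) / 2 := by
    have h1 : s.ex (fun a i => inner ℝ (s.V a i) (s.v a i)) =
        ∑ a, s.μ a * ((2 - E3 s a - E1 s a) / 2) := by
      unfold Side.ex
      refine Finset.sum_congr rfl fun a _ => ?_
      rw [← mean_tv h, Finset.sum_div]
      congr 1
      refine Finset.sum_congr rfl fun i _ => ?_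
      show s.w a i * inner ℝ (s.V a i) (s.v a i) = _
      rw [V_inner]
      ring
    rw [h1]
    have h2 : ∀ a, s.μ a * ((2 - E3 s a - E1 s a) / 2) =
        s.μ a * 1 - ((1 / 2) * (s.μ a * E3 s a) + (1 / 2) * (s.μ a * E1 s a)) := by
      intro a
      ring
    simp only [h2]
    rw [Finset.sum_sub_distrib, hcst, Finset.sum_add_distrib, ← Finset.mul_sum,
      ← Finset.mul_sum, ← hS3, ← hS1]
    ring
  have hvv : s.ex (fun a i => ‖s.v a i‖ ^ 2) ≤ 1 := by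
    have h1 : s.ex (fun a i => ‖s.v a i‖ ^ 2) ≤ s.ex (fun _ _ => 1) := by
      apply s.ex_mono hwt
      intro a i
      have := pow_le_pow_left₀ (norm_nonneg _) (h.lenV a i) 2
      simpa using this
    rwa [s.ex_const hwt] at h1
  have hVd : s.ex (fun a i => ‖s.V a i - s.v a i‖ ^ 2) =
      s.ex (fun a i => ‖s.V a i‖ ^ 2) - 2 * s.ex (fun a i => inner ℝ (s.V a i) (s.v a i)) +
        s.ex (fun a i => ‖s.v a i‖ ^ 2) := by
    rw [← s.ex_mul_left, ← s.ex_sub, ← s.ex_add]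
    congr 1
    funext a i
    rw [norm_sub_sq_real]
  have hSeε : Se ≤ ε := by
    have e1 : 0 ≤ (1 - ε) * (Sk + Sk2) := mul_nonneg (by linarith) (by linarith)
    linarith
  have hVle : s.ex (fun a i => ‖s.V a i‖ ^ 2) ≤ 1 + η ^ 2 := by
    rw [hV]
    have e1 : 2 * n * Se ≤ 2 * n * ε := mul_le_mul_of_nonneg_left hSeε (by linarith)
    have e2 : 2 * n * ε = 4 + 2 * α := by linarith
    linarith
  have hS31 : S3 + S1 ≤ 14 * η ^ 2 / n := by
    have e1 : 14 * η ^ 2 / (n : ℝ) = 10 * η ^ 2 / n + 4 * η ^ 2 / n := by ring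
    rw [e1]
    linarith
  have hn14 : 14 * η ^ 2 / (n : ℝ) ≤ 4 * η ^ 2 := by
    rw [div_le_iff₀ hn0]
    nlinarith
  refine ⟨fun a => ?_, by rw [← hSk]; exact hSkle, hVle, ?_, ?_⟩
  · have e1 := (hb a).2
    have e2 := E1_nn h a
    have e3 : 0 ≤ (1 - ε) * (s.k a + s.k a ^ 2) :=
      mul_nonneg (by linarith) (add_nonneg (h.k0 a) (sq_nonneg _))
    linarith
  · rw [hVd, hVv]
    linarith
  · have e1 : 0 ≤ s.ex (fun a i => ‖s.V a i - s.v a i‖ ^ 2) :=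
      s.ex_nonneg hwt fun a i => sq_nonneg _
    rw [hVd, hVv] at e1
    linarith

/-- module TIG -/
theorem tig : TigStmt := fun n s S η d hn hη hη1 _ hd1 h =>
  tig' n s S η d hn hη hη1 hd1 h h.k1

end Pool.Agent.PJC.H84
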